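import Pool.Agent.TH192.MU.TopZ

set_option autoImplicit false

/-! # Topological zeta functions of products of determinantal ideals

Let `x` be the generic matrix of one of the three spaces `S` of matrices: all `m × n` matrices, the
symmetric `n × n` matrices, the skew symmetric `n × n` matrices (`MSpace`). Let `I_t` be the ideal of
the `p t`-minors of `x` (of the Pfaffians of size `2 (p t)` in the skew symmetric case), where
`p t < min (m, n)`, `p t < n`, or `2 (p t) + 1 < n` (`Small`), and let `I = ∏ t, I_t`, `t < T`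
(repetitions allowed: products of powers), with the generators `detProd S p`.

The topological zeta function is defined as by Denef and Loeser, from the motivic zeta function
`Z_mot(T) = ∑_d [X_d] 𝕃 ^ (-n d) T ^ d` in `𝓜[[T]]`, `X_d` the `d`-jets on which `I` has the order `d`
(`zetaId`), `𝓜` the Grothendieck ring of complex varieties, localised at `𝕃`:
`Z_I(s) = χ(Z_mot(𝕃 ^ (-s)))` for `s = 1, 2, 3, …`. For this, let `E` be a homomorphism from `𝓜` to a
domain `R` with `E(𝕃) ≠ 1`, such as the Hodge-Deligne polynomial `E(u, v)`, and `ε` a homomorphism from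
`R` to `ℂ` with `ε(E(𝕃)) = 1`, such as `u, v ↦ 1`, so that `ε ∘ E` is the Euler characteristic `χ`
(`IsTopZeta`).

No resolution is used: the motivic zeta function is in the ring generated by `T` and the
`(𝕃 - 1) / (1 - 𝕃 ^ (-ν_d) T ^ (N_d))`, `ν_d` the codimension of the matrices of rank `≤ d` (`≤ 2 d`),
`N_d = ∑ t, max (p t - d, 0)`. The factors `𝕃 - 1` come from the scaling of the matrices. -/

namespace Pool.Agent.Results.MP_ee8c61_ag.DeterminantalProducts

open MvPolynomial Pool.Agent.TH192.DT Pool.Agent.TH192.MT Pool.Agent.TH192.MU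
  Pool.Agent.W428.MOT Pool.Agent.W574.SM

/-- **The topological zeta function of a product of determinantal ideals** of a generic, symmetric or
skew symmetric matrix. There is exactly one rational function `Z` with
`Z(s) = ε(E(Z_mot(𝕃 ^ (-s))))` for `s = 1, 2, 3, …`; each of its poles is one of the `-ν_d / N_d`
and is a root of every polynomial `b` which satisfies a functional equation of the family of all
products of one minor (Pfaffian) of size `p t` for each `t`, in particular of the Bernstein-Sato
polynomial of `I`. -/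
theorem result (S : MSpace) (T : ℕ) (p : Fin T → ℕ) (hp : ∀ t, S.Small (p t))
    (R : Type) [CommRing R] [IsDomain R] (E : MK ℂ →+* R) (ε : R →+* ℂ)
    (hε : ε (E ((Lu ℂ : (MK ℂ)ˣ) : MK ℂ)) = 1) (hE : E ((Lu ℂ : (MK ℂ)ˣ) : MK ℂ) ≠ 1) :
    ∃ Z : RatFunc ℂ,
      IsTopZeta E ε (zetaId fun j => map (Int.castRingHom ℂ) (detProd S p j)) Z ∧
      (∀ Z', IsTopZeta E ε (zetaId fun j => map (Int.castRingHom ℂ) (detProd S p j)) Z' →
        Z' = Z) ∧
      ∀ s₀ : ℂ, Z.denom.eval s₀ = 0 →
        (∃ q ∈ detPairs S p (fun _ => 1), s₀ = (q.1 : ℂ) / q.2) ∧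
        ∀ b : Polynomial ℂ,
          IsFunctionalEq (fun j => map (Int.castRingHom ℂ) (detProd S p j)) b →
            b.eval s₀ = 0 := by
  obtain ⟨Z, h1, h2, h3⟩ := prod_top S T p hp E ε hε hE
  refine ⟨Z, h1, h2, fun s₀ hs => ?_⟩
  obtain ⟨q, hq, rfl⟩ := h3 s₀ hs
  exact ⟨⟨q, hq, rfl⟩, fun b hb => (prod_roots S T p hp q hq).2.2 b 1 (by simp)
    (isLocEq_of_isFunctionalEq hb)⟩

end Pool.Agent.Results.MP_ee8c61_ag.DeterminantalProducts
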