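import Pool.Agent.TH187.SA.Classes
import Pool.Agent.TH187.SA.Mult

set_option autoImplicit false

/-! # The strong monodromy conjecture for products of ideals of linear subspaces

Let `L s = zeros (c s)`, `s ∈ S`, be proper linear subspaces of the affine space `ℂ ^ σ`, given as the
zeros of linear forms with the coefficients `c s j`, and let `I = ∏ s, I(L s) ^ e s`. It is generated
by the products of these linear forms, `e s` of them from the family of index `s`, `s ∈ S`
(`arrGen`).

Let `𝒢` be a building set of linear subspaces (De Concini and Procesi) which contains the `L s` with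
`e s > 0`, for example the set of these `L s`, if it is closed under intersections. Let `Y` be the
wonderful model, which is obtained from the affine space by blowing up the strict transforms of the
members of `𝒢`, in the order of the dimension. It is smooth, the components `E_G`, `G ∈ 𝒢`, cross
normally, the multiplicity of the Jacobian determinant along `E_G` is `ν_G - 1` with
`ν_G = codim G`, and the ideal of `L s` becomes the ideal of the divisor `∑ E_G`, over the
`G ⊆ L s`. So `Y` is a log resolution of `I`, with the components `E_G`, of multiplicity
`N_G = ∑ e s`, over the `s` with `G ⊆ L s` (`mult`), and every pole of the topological zeta function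
`Z_I` is one of the numbers `-ν_G / N_G`, `G ∈ 𝒢`, `N_G > 0`.

The theorem needs that the `G` are Rees flats (`IsReesFlat`; an equivalent condition is that `E_G` is
a Rees divisor of the product of the `I(L s)`). This is so for the `L s` themselves; hence the
theorem applies to all `I` for which the `L s`, `e s > 0`, are a building set, in particular if they
are closed under intersections.

Let now `L s = H_s ⊗ ℂ ^ m`, where `H_s` is the hyperplane `α s = 0` of `ℂ ^ ι` (`copies`). Then the
`X ⊗ ℂ ^ m` (`power`), `X` an irreducible flat of the `H_s`, `e s > 0`, are a building set. They are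
Rees flats if `codim X ≤ m`; so the theorem applies to all arrangements of hyperplanes of rank at
most `m`. They are also Rees flats if `X` is constructible (`IsConstructible`) and `m ≥ 2`. The
irreducible flats of a supersolvable arrangement are constructible, so the theorem applies if the
`H_s`, `e s > 0`, are a supersolvable arrangement and `m ≥ 2`; for example, to the diagonals
`x_i = x_j` of the configurations of `n` points in `ℂ ^ m`, if `e > 0` for all the pairs (then `Y` is
the space of Fulton and MacPherson), or if the pairs with `e > 0` are the edges of a chordal graph.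

The proof: the `E_G` are Rees divisors of `I` (`arr_core`, with linear charts at general points of
the `E_G`). -/

namespace Pool.Agent.Results.MP_ee8c61_ag.SubspaceArrangements

open Pool.Agent.W574.SM Pool.Agent.TH192.DT Pool.Agent.TH187.SA

/-- **Products of ideals of linear subspaces.** (1) Let `G` be a Rees flat of the subspaces `L s`,
`e s > 0`. Every polynomial `b` which satisfies a functional equation of the family of the products
of the linear forms, `e s` of them from the family of `L s`, `s ∈ S`, in particular the
Bernstein-Sato polynomial of the ideal `∏ s, I(L s) ^ e s`, has the roots `-(codim G + l) / N_G`, `0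
≤ l < N_G`, where `N_G` is the sum of the `e s` with `G ⊆ L s`. (2) Proper subspaces are Rees flats
of every finite family which contains them. (3) Let `L s = H_s ⊗ ℂ ^ m`, where `H_s` is the
hyperplane `α s = 0`. Let `X` be an irreducible flat of the `H_s`, `s ∈ A`, of codimension at most
`m`, or let `m ≥ 2` and let `X` be constructible from the `H_s`, `s ∈ A`. Then `X ⊗ ℂ ^ m` is a Rees
flat of the `L s`, `s ∈ A`, of codimension `m codim X`. -/
theorem result :
    (∀ {σ S : Type} [Fintype σ] [DecidableEq σ] [Fintype S] [DecidableEq S] {κ : S → Type}
      [∀ s, Fintype (κ s)] (c : (s : S) → κ s → σ → ℂ) (e : S → ℕ) (b : Polynomial ℂ)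
      (_ : IsFunctionalEq (arrGen c e) b) (G : Submodule ℂ (σ → ℂ))
      (_ : IsReesFlat (fun s => zeros (c s)) (fun s => e s ≠ 0) G)
      (l : ℕ) (_ : l < mult (fun s => zeros (c s)) e G),
      b.eval (-(((Fintype.card σ - Module.finrank ℂ G : ℕ) : ℂ) + l) /
        (mult (fun s => zeros (c s)) e G : ℕ)) = 0) ∧
    (∀ {σ S : Type} [Fintype σ] [DecidableEq σ] [Finite S] (H : S → Submodule ℂ (σ → ℂ))
      (A : S → Prop), (∀ s, A s → H s ≠ ⊤) → ∀ s, A s → IsReesFlat H A (H s)) ∧
    ∀ {ι S : Type} [Fintype ι] [DecidableEq ι] [Finite S] (m : ℕ) (α : S → ι → ℂ) (A : S → Prop)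
      (X : Submodule ℂ (ι → ℂ)), (∀ s, A s → α s ≠ 0) →
      (IsIrreducibleFlat α A X ∧ Fintype.card ι ≤ m + Module.finrank ℂ X ∨
        IsConstructible α A X ∧ 2 ≤ m) →
      IsReesFlat (fun s => zeros (copies m (α s))) A (power m X) ∧
        Fintype.card (ι × Fin m) - Module.finrank ℂ (power m X)
          = m * (Fintype.card ι - Module.finrank ℂ X) := by
  refine ⟨?_, ?_, ?_⟩
  · intro σ S _ _ _ _ κ _ c e b hb G hG l hl
    exact arr_roots_one c e b 1 (by simp) (isLocEq_of_isFunctionalEq hb) G hG l hl
  · intro σ S _ _ _ H A hH s hs
    exact isReesFlat_self H A hH s hs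
  · intro ι S _ _ _ m α A X h0 hX
    exact ⟨isReesFlat_multiple m α A X h0 hX, codim_power m X⟩

end Pool.Agent.Results.MP_ee8c61_ag.SubspaceArrangements
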